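import Pool.Agent.Run7.h943.FP.Stm

/-! # Piece OEX of the project on `MP_de94ef_pr` (helper943): the exit estimate, outer half -/

set_option autoImplicit false
open MeasureTheory ProbabilityTheory Filter Set
open scoped ENNReal Pointwise Topology

namespace Run7.h24.FP.OEX

open Pool.Agent.N662.FP Run7.h943.FP

/-- comparison of powers -/
theorem ev {a b : ℝ} (h : a < b) {ε : ℝ} (hε : 0 < ε) :
    ∀ᶠ n : ℕ in atTop, (n : ℝ) ^ a ≤ ε * (n : ℝ) ^ b := by
  have h1 : Tendsto (fun x : ℝ => x ^ (-(b - a))) atTop (𝓝 0) :=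
    tendsto_rpow_neg_atTop (by linarith)
  have h2 := h1.comp tendsto_natCast_atTop_atTop
  have h3 : ∀ᶠ n : ℕ in atTop, (n : ℝ) ^ (-(b - a)) < ε := by
    have := h2.eventually (gt_mem_nhds hε)
    simpa using this
  filter_upwards [h3, eventually_ge_atTop 1] with n hn hn1
  have hp : (0 : ℝ) < n := by exact_mod_cast hn1
  have e1 : (n : ℝ) ^ a = (n : ℝ) ^ (-(b - a)) * (n : ℝ) ^ b := by
    rw [← Real.rpow_add hp]; congr 1; ring
  rw [e1]
  exact mul_le_mul_of_nonneg_right hn.le (Real.rpow_nonneg hp.le _)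

/-- exponential against power -/
theorem evexp {c : ℝ} (hc : 0 < c) (b : ℝ) {ε : ℝ} (hε : 0 < ε) :
    ∀ᶠ n : ℕ in atTop, Real.exp (-(c * n)) ≤ ε * (n : ℝ) ^ b := by
  have h1 := (isLittleO_exp_neg_mul_rpow_atTop hc b).def hε
  have h2 := tendsto_natCast_atTop_atTop (R := ℝ) |>.eventually h1
  filter_upwards [h2, eventually_ge_atTop 1] with n hn hn1
  have hp : (0 : ℝ) < n := by exact_mod_cast hn1
  rw [Real.norm_of_nonneg (Real.exp_pos _).le,
    Real.norm_of_nonneg (Real.rpow_nonneg hp.le _)] at hn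
  convert hn using 2
  ring

theorem em_sub (u z : ℤ × ℤ) : em (u - z) = em u - em z := by
  simp [Pool.Agent.N662.FP.em]

theorem al_sub (y a b : ℝ × ℝ) : al y (a - b) = al y a - al y b := by
  simp only [al, Prod.fst_sub, Prod.snd_sub]; ring

theorem cr_sub (y a b : ℝ × ℝ) : cr y (a - b) = cr y a - cr y b := by
  simp only [cr, Prod.fst_sub, Prod.snd_sub]; ring

theorem eu_nonneg (x : ℝ × ℝ) : 0 ≤ eu x := Real.sqrt_nonneg _

theorem max_le_eu (x : ℝ × ℝ) : max |x.1| |x.2| ≤ eu x := by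
  unfold eu
  refine max_le ?_ ?_
  · refine Real.le_sqrt_of_sq_le ?_
    rw [sq_abs]; nlinarith [sq_nonneg x.2]
  · refine Real.le_sqrt_of_sq_le ?_
    rw [sq_abs]; nlinarith [sq_nonneg x.1]

theorem box_eu {N : ℕ} {z : ℤ × ℤ} (hz : z ∈ box N) : eu (em z) ≤ 3 / 2 * N := by
  simp only [box, Finset.mem_product, Finset.mem_Icc] at hz
  obtain ⟨⟨h1, h2⟩, h3, h4⟩ := hz
  have h1' : (-(N : ℝ)) ≤ (z.1 : ℝ) := by exact_mod_cast h1
  have h2' : (z.1 : ℝ) ≤ N := by exact_mod_cast h2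
  have h3' : (-(N : ℝ)) ≤ (z.2 : ℝ) := by exact_mod_cast h3
  have h4' : (z.2 : ℝ) ≤ N := by exact_mod_cast h4
  have hN : (0 : ℝ) ≤ N := Nat.cast_nonneg N
  unfold eu Pool.Agent.N662.FP.em
  rw [Real.sqrt_le_left (by positivity)]
  have a1 : (z.1 : ℝ) ^ 2 ≤ (N : ℝ) ^ 2 := by
    rw [sq_le_sq, abs_of_nonneg hN]; exact abs_le.2 ⟨h1', h2'⟩
  have a2 : (z.2 : ℝ) ^ 2 ≤ (N : ℝ) ^ 2 := by
    rw [sq_le_sq, abs_of_nonneg hN]; exact abs_le.2 ⟨h3', h4'⟩
  nlinarith

theorem not_box {N : ℕ} {z : ℤ × ℤ} (hz : z ∉ box N) : (N : ℝ) ≤ eu (em z) := by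
  refine le_trans ?_ (max_le_eu _)
  by_contra h
  push Not at h
  obtain ⟨h1, h2⟩ := max_lt_iff.1 h
  apply hz
  simp only [box, Finset.mem_product, Finset.mem_Icc]
  have h1' : |z.1| < (N : ℤ) := by
    have : |(z.1 : ℝ)| < (N : ℝ) := h1
    exact_mod_cast this
  have h2' : |z.2| < (N : ℤ) := by
    have : |(z.2 : ℝ)| < (N : ℝ) := h2
    exact_mod_cast this
  obtain ⟨a1, a2⟩ := abs_lt.1 h1'
  obtain ⟨a3, a4⟩ := abs_lt.1 h2'
  exact ⟨⟨a1.le, a2.le⟩, a3.le, a4.le⟩

theorem mono_ae {Ω : Type} [MeasureSpace Ω] [IsProbabilityMeasure (volume : Measure Ω)]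
    {s t : Set Ω} (h : ∀ᵐ ω ∂(volume : Measure Ω), ω ∈ s → ω ∈ t) :
    (volume : Measure Ω).real s ≤ (volume : Measure Ω).real t :=
  ENNReal.toReal_mono (measure_ne_top _ _) (measure_mono_ae h)

theorem t_OEX : Run7.h943.FP.S_GEO → S_LOW → S_TRL → S_OEX := by
  intro hGEO hLOW hTRL Ω _ _ X hX μ hG y m hM χ χ' q hχ hχχ' hχ' hq hLT
  obtain ⟨c0, B, hc0, hB, hn⟩ := cNORM μ hG.norm
  obtain ⟨hG1, hG2, hG3, hG4, hG5, hG6⟩ := hGEO y hM.unit
  have hm := hM.pos
  have hBe : ∀ x, μ x ≤ B * eu x := fun x =>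
    (hn x).2.trans (mul_le_mul_of_nonneg_left (max_le_eu x) hB.le)
  set q' : ℝ := 2 * q + 6 with hq'
  have hq'0 : 0 < q' := by positivity
  obtain ⟨C, hC, hLTv⟩ := hLT q' hq'0
  -- constants
  set D0 : ℝ := C * (m / 2) ^ (-q') with hD0
  have hD00 : 0 < D0 := by positivity
  have E1 := eventually_ge_atTop (α := ℕ) 2
  have E2 := ev (a := χ') (b := 1) (by linarith) (ε := m) hm
  have E3 := ev (a := 1 + χ') (b := 6 / 5) (by linarith) (ε := m / 48) (by positivity)
  have E3' := ev (a := 1) (b := 6 / 5) (by norm_num) (ε := 1 / 48) (by positivity)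
  have E4 := ev (a := 3 / 5) (b := 1) (by norm_num) (ε := 1 / 2) (by positivity)
  have E5 := ev (a := χ) (b := 1 / 5) (by linarith) (ε := m / (24 * (C * (1 + 14 * B) ^ χ)))
    (by positivity)
  have E5' := ev (a := 0) (b := 1 / 5) (by norm_num) (ε := 1 / (12 * (1 + 1 / m)))
    (by positivity)
  have E6 := evexp (c := m / 4) (by positivity) (b := -(q + 2))
    (ε := 1 / (2 * (4 * 17 ^ 2) * Real.exp 1)) (by positivity)
  have E6' := ev (a := -(3 / 5 * q')) (b := -(q + 2)) (by rw [hq']; linarith)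
    (ε := 1 / (2 * (4 * 17 ^ 2) * (2 * D0))) (by positivity)
  have E7 := ev (a := 0) (b := 1) (by norm_num) (ε := 3 * m) (by positivity)
  filter_upwards [E1, E2, E3, E3', E4, E5, E5', E6, E6', E7] with n e1 e2 e3 e3' e4 e5 e5' e6 e6' e7
  intro u hu1 hu2
  have hnr : (2 : ℝ) ≤ n := by exact_mod_cast e1
  have hn0 : (0 : ℝ) < n := by linarith
  set w : ℝ := (n : ℝ) ^ (3 / 5 : ℝ) with hw
  have hw0 : 0 < w := Real.rpow_pos_of_pos hn0 _
  have hw2 : w ^ 2 = (n : ℝ) ^ (6 / 5 : ℝ) := by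
    rw [hw, ← Real.rpow_natCast, ← Real.rpow_mul hn0.le]; norm_num
  rw [Real.rpow_one] at e2 e3' e4 e7
  rw [Real.rpow_zero] at e5' e7
  -- n ^ χ' / m ≤ n
  set g : ℝ := (n : ℝ) ^ χ' with hg
  have hg0 : 0 ≤ g := Real.rpow_nonneg hn0.le _
  have hgm : g / m ≤ n := by rw [div_le_iff₀ hm]; linarith
  have heu : eu (em u) ≤ n + g / m := by
    have h1 := hM.ge (em u)
    have h2 : m * eu (em u) ≤ m * (n + g / m) := by
      have : m * (n + g / m) = m * n + g := by field_simp
      rw [this]; linarith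
    exact le_of_mul_le_mul_left h2 hm
  have heu2 : eu (em u) ≤ 2 * n := by linarith
  have hgn : g / m * n ≤ (n : ℝ) ^ (6 / 5 : ℝ) / 48 := by
    have h1 : (n : ℝ) ^ (1 + χ') = n * g := by rw [Real.rpow_add hn0, Real.rpow_one]
    rw [h1] at e3
    have : g / m * n = (n * g) / m := by ring
    rw [this, div_le_iff₀ hm]
    linarith
  have hcr : |cr y (em u)| ≤ w / 2 := by
    have h1 := hG5 (em u)
    have h2 : cr y (em u) ^ 2 ≤ (w / 2) ^ 2 := by
      have h3 : (n - 1 : ℝ) ^ 2 ≤ al y (em u) ^ 2 := by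
        apply pow_le_pow_left₀ (by linarith) hu1
      have h4 : eu (em u) ^ 2 ≤ (n + g / m) ^ 2 := pow_le_pow_left₀ (eu_nonneg _) heu 2
      have h5 : (w / 2) ^ 2 = (n : ℝ) ^ (6 / 5 : ℝ) / 4 := by rw [div_pow, hw2]; norm_num
      rw [h5]
      have h6 : (g / m) ^ 2 ≤ g / m * n := by
        rw [sq]; exact mul_le_mul_of_nonneg_left hgm (by positivity)
      nlinarith
    exact abs_le_of_sq_le_sq h2 (by positivity)
  -- the main deterministic estimate
  have hal : al y (em u) ≤ 2 * n := (le_abs_self _).trans ((hG6 (em u)).1.trans heu2)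
  have key : ∀ z : ℤ × ℤ, z ∈ box (8 * n) → w < |cr y (em z)| →
      m * n + 1 ≤ (μ (em z) - C * (1 + μ (em z)) ^ χ) +
        (μ (em (u - z)) - C * (1 + μ (em (u - z))) ^ χ) := by
    intro z hz hzw
    have a1 : eu (em z) ≤ 12 * n := by
      have := box_eu hz
      push_cast at this
      linarith
    have hcz : |cr y (em (u - z))| ≥ w / 2 := by
      rw [em_sub, cr_sub]
      have := abs_sub_abs_le_abs_sub (cr y (em z)) (cr y (em u))
      rw [abs_sub_comm] at this
      linarith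
    have a2 : eu (em (u - z)) ≤ 14 * n := by
      have b1 : eu (em (u - z)) ≤ eu (em u) + eu (em z) := by
        have := hG2 (em u) (-(em z))
        rw [em_sub]
        have c1 : al y (em u) + al y (-(em z)) = al y (em u - em z) := by
          simp only [al, Prod.fst_sub, Prod.snd_sub, Prod.fst_neg, Prod.snd_neg]; ring
        have c2 : eu (-(em z)) = eu (em z) := by
          simp only [eu, Prod.fst_neg, Prod.snd_neg]; congr 1; ring
        have c3 : |cr y (em u - em z)| ≤ |cr y (em u)| + |cr y (-(em z))| := by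
          have : cr y (em u - em z) = cr y (em u) + cr y (-(em z)) := by
            simp only [cr, Prod.fst_sub, Prod.snd_sub, Prod.fst_neg, Prod.snd_neg]; ring
          rw [this]; exact abs_add_le _ _
        rw [c1, c2] at this
        refine le_trans ?_ this
        refine Real.le_sqrt_of_sq_le ?_
        rw [hG5 (em u - em z)]
        have c4 : cr y (em u - em z) ^ 2 ≤ (|cr y (em u)| + |cr y (-(em z))|) ^ 2 := by
          rw [← sq_abs]; exact pow_le_pow_left₀ (abs_nonneg _) c3 2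
        linarith
      linarith
    have b1 : μ (em z) ≤ 14 * B * n := by
      have := hBe (em z)
      nlinarith
    have b2 : μ (em (u - z)) ≤ 14 * B * n := by
      have := hBe (em (u - z))
      nlinarith
    have pw : ∀ s : ℝ, 0 ≤ s → s ≤ 14 * B * n → C * (1 + s) ^ χ ≤
        m / 24 * (n : ℝ) ^ (1 / 5 : ℝ) := by
      intro s hs0 hs
      have c1 : (1 + s) ^ χ ≤ ((1 + 14 * B) * n) ^ χ :=
        Real.rpow_le_rpow (by linarith) (by nlinarith) hχ.le
      have c2 : ((1 + 14 * B) * n) ^ χ = (1 + 14 * B) ^ χ * (n : ℝ) ^ χ :=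
        Real.mul_rpow (by positivity) hn0.le
      have c3 : C * (1 + s) ^ χ ≤ C * (1 + 14 * B) ^ χ * (n : ℝ) ^ χ := by
        rw [mul_assoc, ← c2]; exact mul_le_mul_of_nonneg_left c1 hC.le
      refine c3.trans ?_
      have c4 : C * (1 + 14 * B) ^ χ * (n : ℝ) ^ χ ≤
          C * (1 + 14 * B) ^ χ * (m / (24 * (C * (1 + 14 * B) ^ χ)) * (n : ℝ) ^ (1 / 5 : ℝ)) :=
        mul_le_mul_of_nonneg_left e5 (by positivity)
      refine c4.trans (le_of_eq ?_)
      have : C * (1 + 14 * B) ^ χ ≠ 0 := by positivity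
      field_simp
    have p1 := pw _ (apply_nonneg μ _) b1
    have p2 := pw _ (apply_nonneg μ _) b2
    have d1 : al y (em u) + w ^ 2 / (3 * al y (em u)) ≤ eu (em z) + eu (em (u - z)) := by
      have hIw : w ≤ al y (em u) := by linarith
      refine (hG3 (al y (em u)) w hw0 hIw).trans ?_
      refine le_trans ?_ (hG2 (em z) (em (u - z)))
      apply Real.sqrt_le_sqrt
      have c1 : al y (em z) + al y (em (u - z)) = al y (em u) := by
        rw [em_sub, al_sub]; ring
      rw [c1]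
      have c2 : w ≤ |cr y (em z)| + |cr y (em (u - z))| := by linarith
      have := pow_le_pow_left₀ hw0.le c2 2
      linarith
    have d2 : (n : ℝ) ^ (1 / 5 : ℝ) / 6 ≤ w ^ 2 / (3 * al y (em u)) := by
      have hI0 : 0 < al y (em u) := by linarith
      rw [le_div_iff₀ (by positivity), hw2]
      have c1 : (n : ℝ) ^ (6 / 5 : ℝ) = (n : ℝ) ^ (1 / 5 : ℝ) * n := by
        nth_rewrite 3 [← Real.rpow_one (n : ℝ)]
        rw [← Real.rpow_add hn0]; norm_num
      rw [c1]
      have c2 : 0 ≤ (n : ℝ) ^ (1 / 5 : ℝ) := Real.rpow_nonneg hn0.le _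
      nlinarith
    have d3 := hM.ge (em z)
    have d4 := hM.ge (em (u - z))
    have d5 : m * (n - 1 + (n : ℝ) ^ (1 / 5 : ℝ) / 6) ≤ μ (em z) + μ (em (u - z)) := by
      have : m * (n - 1 + (n : ℝ) ^ (1 / 5 : ℝ) / 6) ≤ m * (eu (em z) + eu (em (u - z))) :=
        mul_le_mul_of_nonneg_left (by linarith) hm.le
      linarith
    have d6 : m + 1 ≤ m / 12 * (n : ℝ) ^ (1 / 5 : ℝ) := by
      have c1 : 12 * (1 + 1 / m) ≤ (n : ℝ) ^ (1 / 5 : ℝ) := by
        have : (0 : ℝ) < 12 * (1 + 1 / m) := by positivity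
        rw [one_div, inv_mul_eq_div, le_div_iff₀ this] at e5'
        linarith
      have c2 : m + 1 = m / 12 * (12 * (1 + 1 / m)) := by field_simp
      rw [c2]
      exact mul_le_mul_of_nonneg_left c1 (by positivity)
    nlinarith
  -- probabilities
  set β : ℝ := Real.exp (1 - m * n / 4) + 2 * (D0 * (n : ℝ) ^ (-(3 / 5 * q'))) with hβ
  have pwr : ∀ s : ℝ, m * (w / 2) ≤ s → C * (1 + s) ^ (-q') ≤ D0 * (n : ℝ) ^ (-(3 / 5 * q')) := by
    intro s hs
    have c1 : (1 + s) ^ (-q') ≤ (m / 2 * w) ^ (-q') := by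
      apply Real.rpow_le_rpow_of_nonpos (by positivity) (by nlinarith) (by linarith)
    have c2 : (m / 2 * w) ^ (-q') = (m / 2) ^ (-q') * (n : ℝ) ^ (-(3 / 5 * q')) := by
      rw [Real.mul_rpow (by positivity) hw0.le, hw, ← Real.rpow_mul hn0.le]
      congr 2; ring
    rw [c2] at c1
    have := mul_le_mul_of_nonneg_left c1 hC.le
    rw [hD0]
    linarith
  have hone : ∀ z ∈ bd (tube y (8 * n) w), (volume : Measure Ω).real
      {ω | D (env X ω) 0 z + D (env X ω) z u < m * n + 1} ≤ β := by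
    intro z hz
    obtain ⟨hzb, hz2⟩ := (hG1 (8 * n) w hw0.le).2.2.2.2.2 z hz
    by_cases hzB : z ∈ box (8 * n)
    · have hzw : w < |cr y (em z)| := by
        rcases hz2 with h | h
        · exact absurd hzB h
        · exact h.1
      have hk := key z hzB hzw
      have hcz : w / 2 ≤ |cr y (em (u - z))| := by
        rw [em_sub, cr_sub]
        have := abs_sub_abs_le_abs_sub (cr y (em z)) (cr y (em u))
        rw [abs_sub_comm] at this
        linarith
      have P1 : (volume : Measure Ω).real {ω | D (env X ω) 0 z <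
          μ (em z) - C * (1 + μ (em z)) ^ χ} ≤ D0 * (n : ℝ) ^ (-(3 / 5 * q')) := by
        refine (hLTv z).trans (pwr _ ?_)
        have h1 := (hG6 (em z)).2.1
        have h2 := hM.ge (em z)
        nlinarith
      have P2 : (volume : Measure Ω).real {ω | D (env X ω) z u <
          μ (em (u - z)) - C * (1 + μ (em (u - z))) ^ χ} ≤ D0 * (n : ℝ) ^ (-(3 / 5 * q')) := by
        have h0 := (hTRL Ω X hX z (u - z) (μ (em (u - z)) - C * (1 + μ (em (u - z))) ^ χ)).1
        rw [add_sub_cancel] at h0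
        rw [h0]
        refine (hLTv (u - z)).trans (pwr _ ?_)
        have h1 := (hG6 (em (u - z))).2.1
        have h2 := hM.ge (em (u - z))
        nlinarith
      have hsub : {ω | D (env X ω) 0 z + D (env X ω) z u < m * n + 1} ⊆
          {ω | D (env X ω) 0 z < μ (em z) - C * (1 + μ (em z)) ^ χ} ∪
          {ω | D (env X ω) z u < μ (em (u - z)) - C * (1 + μ (em (u - z))) ^ χ} := by
        intro ω hω
        simp only [mem_ofPred_eq, mem_union] at hω ⊢
        by_contra hcon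
        push Not at hcon
        linarith [hcon.1, hcon.2]
      have h1 : (volume : Measure Ω).real
          {ω | D (env X ω) 0 z + D (env X ω) z u < m * n + 1} ≤
          (volume : Measure Ω).real {ω | D (env X ω) 0 z < μ (em z) - C * (1 + μ (em z)) ^ χ} +
          (volume : Measure Ω).real {ω | D (env X ω) z u <
            μ (em (u - z)) - C * (1 + μ (em (u - z))) ^ χ} :=
        (measureReal_mono hsub (measure_ne_top _ _)).trans (measureReal_union_le _ _)
      have h2 := (Real.exp_pos (1 - m * n / 4)).le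
      rw [hβ]
      linarith
    · have h1 : (8 * n : ℝ) ≤ eu (em z) := by
        have := not_box hzB
        push_cast at this
        exact this
      have h2 := hM.ge (em z)
      have h3 : 8 * m * n ≤ μ (em z) := by nlinarith
      have h30 : 0 < μ (em z) := lt_of_lt_of_le (by positivity) h3
      have h4 := hLOW Ω X hX μ hG z (μ (em z) / 2) h30 (by positivity) (by linarith)
      have h5 : (volume : Measure Ω).real {ω | D (env X ω) 0 z + D (env X ω) z u < m * n + 1} ≤
          (volume : Measure Ω).real {ω | D (env X ω) 0 z < μ (em z) - μ (em z) / 2} := by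
        apply mono_ae
        filter_upwards [cAE Ω X hX] with ω hω hE
        have h6 := (cGE (env X ω) hω z u).2.2.1
        have hE' : D (env X ω) 0 z + D (env X ω) z u < m * n + 1 := hE
        show D (env X ω) 0 z < μ (Pool.Agent.N662.FP.em z) - μ (Pool.Agent.N662.FP.em z) / 2
        nlinarith
      have h7 : Real.exp (1 - (μ (em z) / 2) ^ 2 / (8 * μ (em z))) ≤ Real.exp (1 - m * n / 4) := by
        apply Real.exp_le_exp.2
        have : (μ (em z) / 2) ^ 2 / (8 * μ (em z)) = μ (em z) / 32 := by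
          field_simp; ring
        rw [this]
        linarith
      have h8 : 0 ≤ D0 * (n : ℝ) ^ (-(3 / 5 * q')) := by positivity
      rw [hβ]
      linarith
  -- union bound
  have hun : {ω | ∃ z ∈ bd (tube y (8 * n) w),
      D (env X ω) 0 z + D (env X ω) z u < m * n + 1} =
      ⋃ z ∈ bd (tube y (8 * n) w), {ω | D (env X ω) 0 z + D (env X ω) z u < m * n + 1} := by
    ext ω; simp
  rw [hun]
  refine (measureReal_biUnion_finset_le _ _).trans ?_
  refine (Finset.sum_le_sum hone).trans ?_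
  rw [Finset.sum_const, nsmul_eq_mul]
  have hcard := (hG1 (8 * n) w hw0.le).2.2.1
  push_cast at hcard
  have hc2 : ((bd (tube y (8 * n) w)).card : ℝ) ≤ 4 * 17 ^ 2 * (n : ℝ) ^ (2 : ℝ) := by
    rw [Real.rpow_two]
    refine hcard.trans ?_
    nlinarith
  have hβ0 : 0 ≤ β := by positivity
  have hb1 : Real.exp (1 - m * n / 4) ≤ 1 / (2 * (4 * 17 ^ 2)) * (n : ℝ) ^ (-(q + 2)) := by
    have c1 : Real.exp (1 - m * n / 4) = Real.exp 1 * Real.exp (-(m / 4 * n)) := by
      rw [← Real.exp_add]; congr 1; ring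
    rw [c1]
    have c2 := mul_le_mul_of_nonneg_left e6 (Real.exp_pos 1).le
    refine c2.trans (le_of_eq ?_)
    have := (Real.exp_pos 1).ne'
    field_simp
  have hb2 : 2 * (D0 * (n : ℝ) ^ (-(3 / 5 * q'))) ≤
      1 / (2 * (4 * 17 ^ 2)) * (n : ℝ) ^ (-(q + 2)) := by
    have c2 := mul_le_mul_of_nonneg_left e6' (show 0 ≤ 2 * D0 by positivity)
    calc 2 * (D0 * (n : ℝ) ^ (-(3 / 5 * q'))) = 2 * D0 * (n : ℝ) ^ (-(3 / 5 * q')) := by ring
      _ ≤ _ := c2
      _ = _ := by
        have := hD00.ne'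
        field_simp
  have hb3 : β ≤ 1 / (4 * 17 ^ 2) * (n : ℝ) ^ (-(q + 2)) := by
    rw [hβ]
    have : 1 / (4 * 17 ^ 2 : ℝ) * (n : ℝ) ^ (-(q + 2)) =
      1 / (2 * (4 * 17 ^ 2)) * (n : ℝ) ^ (-(q + 2)) +
      1 / (2 * (4 * 17 ^ 2)) * (n : ℝ) ^ (-(q + 2)) := by ring
    rw [this]
    linarith
  calc ((bd (tube y (8 * n) w)).card : ℝ) * β
      ≤ (4 * 17 ^ 2 * (n : ℝ) ^ (2 : ℝ)) * (1 / (4 * 17 ^ 2) * (n : ℝ) ^ (-(q + 2))) :=
        mul_le_mul hc2 hb3 hβ0 (by positivity)
    _ = (n : ℝ) ^ (2 : ℝ) * (n : ℝ) ^ (-(q + 2)) := by ring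
    _ = (n : ℝ) ^ (-q) := by rw [← Real.rpow_add hn0]; congr 1; ring

end Run7.h24.FP.OEX
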